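import Pool.Agent.H961.T5.Stm
import Pool.Agent.H961.T3.Clt

/-!
Project JL: the joint characteristic function of the numbers of cycles in several windows (helper909)
-/

set_option autoImplicit false

namespace Pool.Agent.H961.T5.Jclth

open Finset Equiv Matrix Q292.LC Pool.Agent.H961.T2 Pool.Agent.H961.T3 Pool.Agent.H961.T5
open Pool.Agent.Y998.ST (stirExp stirLaw nnRate cycleLen law_nonneg nn_nonneg)
open Pool.Agent.Y998.CN (law_sum)
open Pool.Agent.H961.T3.Clth (prod_diff one_sub_exp expI_sub lam_bd er_ge le_sqrt_of nc_sum ar1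
  ar2 ar3 ar4 ar5)

theorem prod_excl (P : ℕ → Prop) [DecidablePred P] (z : ℕ → ℂ) (K : ℕ)
    (hP : ∀ i j, i < j → j < K → P i → ¬ P j) :
    ∏ k ∈ range K, (if P k then z k else 1) =
      1 + ∑ k ∈ range K, (z k - 1) * ((if P k then 1 else 0 : ℝ) : ℂ) := by
  induction K with
  | zero => simp
  | succ K ih =>
    rw [prod_range_succ, sum_range_succ, ih fun i j hij hj => hP i j hij (by omega)]
    by_cases h : P K
    · have h1 : ∑ k ∈ range K, (z k - 1) * ((if P k then 1 else 0 : ℝ) : ℂ) = 0 := by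
        refine sum_eq_zero fun k hk => ?_
        rw [if_neg fun hk' => hP k K (mem_range.1 hk) (by omega) hk' h]
        rw [Complex.ofReal_zero, mul_zero]
      rw [h1, if_pos h, if_pos h, Complex.ofReal_one]
      ring
    · rw [if_neg h, if_neg h, Complex.ofReal_zero]
      ring

theorem sum_le_pow (a b : ℕ → ℝ) (K l : ℕ) (ha : ∀ k < K, 0 ≤ a k ∧ a k ≤ b k)
    (hab : ∀ k, k + 1 < K → b k ≤ a (k + 1)) (j : ℕ) (hj : j + 1 ≤ K) :
    ∑ k ∈ range (j + 1), (b k ^ l - a k ^ l) ≤ b j ^ l := by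
  induction j with
  | zero =>
    rw [sum_range_one]
    have := pow_nonneg (ha 0 (by omega)).1 l
    linarith
  | succ j ih =>
    rw [sum_range_succ]
    have h1 := ih (by omega)
    have h2 : b j ^ l ≤ a (j + 1) ^ l :=
      pow_le_pow_left₀ ((ha j (by omega)).1.trans (ha j (by omega)).2) (hab j (by omega)) l
    linarith

theorem fac_norm (K : ℕ) (a b : ℕ → ℝ) (z : ℕ → ℂ) (l : ℕ)
    (ha : ∀ k < K, 0 ≤ a k ∧ a k ≤ b k) (hb : ∀ k < K, b k ≤ 1) (hz : ∀ k < K, ‖z k‖ ≤ 1)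
    (hab : ∀ k, k + 1 < K → b k ≤ a (k + 1)) : ‖fac K a b z l‖ ≤ 1 := by
  have hs : ∑ k ∈ range K, (b k ^ l - a k ^ l) ≤ 1 := by
    rcases Nat.eq_zero_or_pos K with h | h
    · subst h
      rw [sum_range_zero]
      exact zero_le_one
    · obtain ⟨j, rfl⟩ : ∃ j, K = j + 1 := ⟨K - 1, by omega⟩
      refine (sum_le_pow a b (j + 1) l ha hab j le_rfl).trans ?_
      exact pow_le_one₀ ((ha j (by omega)).1.trans (ha j (by omega)).2) (hb j (by omega))
  have hx : ∀ k ∈ range K, 0 ≤ b k ^ l - a k ^ l := by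
    intro k hk
    have hk' := mem_range.1 hk
    have := pow_le_pow_left₀ (ha k hk').1 (ha k hk').2 l
    linarith
  have e : fac K a b z l = ((1 - ∑ k ∈ range K, (b k ^ l - a k ^ l) : ℝ) : ℂ) +
      ∑ k ∈ range K, ((b k ^ l - a k ^ l : ℝ) : ℂ) * z k := by
    unfold fac
    rw [Complex.ofReal_sub, Complex.ofReal_sum, Complex.ofReal_one, sub_eq_add_neg, add_assoc,
      ← sum_neg_distrib, ← sum_add_distrib]
    congr 1
    refine sum_congr rfl fun k _ => ?_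
    push_cast
    ring
  rw [e]
  refine (norm_add_le _ _).trans ?_
  rw [Complex.norm_real, Real.norm_eq_abs, abs_of_nonneg (by linarith)]
  have h2 : ‖∑ k ∈ range K, ((b k ^ l - a k ^ l : ℝ) : ℂ) * z k‖ ≤
      ∑ k ∈ range K, (b k ^ l - a k ^ l) := by
    refine (norm_sum_le _ _).trans (sum_le_sum fun k hk => ?_)
    rw [norm_mul, Complex.norm_real, Real.norm_eq_abs, abs_of_nonneg (hx k hk)]
    exact mul_le_of_le_one_right (hx k hk) (hz k (mem_range.1 hk))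
  linarith

theorem ind_cmp (x c n c' n' D : ℝ) (h : n = c' ∨ (n = n' ∧ n' ≤ c')) :
    |(if c < D ∧ D ≤ c' then (1 : ℝ) else 0) - x| ≤
      |x - (if c < D ∧ D ≤ n then 1 else 0)| + (if n' < D then 1 else 0) := by
  have h0 : (0 : ℝ) ≤ if n' < D then 1 else 0 := by split_ifs <;> norm_num
  rw [abs_sub_comm]
  rcases h with rfl | ⟨rfl, h⟩
  · linarith
  · by_cases hD : n < D
    · rw [if_pos hD, if_neg (fun h' : c < D ∧ D ≤ n => absurd h'.2 (not_le.2 hD)), sub_zero]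
      have h1 : |(if c < D ∧ D ≤ c' then (1 : ℝ) else 0)| ≤ 1 := by
        split_ifs <;> norm_num
      have h2 : |x - (if c < D ∧ D ≤ c' then (1 : ℝ) else 0)| ≤
          |x| + |(if c < D ∧ D ≤ c' then (1 : ℝ) else 0)| := by
        have := abs_add_le x (-(if c < D ∧ D ≤ c' then (1 : ℝ) else 0))
        rwa [abs_neg, ← sub_eq_add_neg] at this
      linarith
    · have hD' : D ≤ n := not_lt.1 hD
      have h1 : (c < D ∧ D ≤ c') ↔ (c < D ∧ D ≤ n) :=
        ⟨fun h' => ⟨h'.1, hD'⟩, fun h' => ⟨h'.1, hD'.trans h⟩⟩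
      rw [if_congr h1 rfl rfl]
      linarith

section comb

variable {V : Type} [Fintype V] [DecidableEq V]

open Classical in
theorem wc_pow (n₁ n₂ : ℝ) (g : Perm V) (z : ℂ) :
    z ^ wc n₁ n₂ g =
      ∏ D ∈ cycs g, (if n₁ < (D.card : ℝ) ∧ (D.card : ℝ) ≤ n₂ then z else 1) := by
  unfold wc
  rw [prod_ite, prod_const, prod_const_one, mul_one]

open Classical in
/-- the comparison for one permutation -/
theorem one_perm (K : ℕ) (c n₂ : ℕ → ℝ) (n' : ℝ) (z : ℕ → ℂ) (hz : ∀ k < K, ‖z k‖ ≤ 1)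
    (hmono : ∀ i j, i ≤ j → j ≤ K → c i ≤ c j) (hc : ∀ k < K, 0 < c k ∧ c k ≤ n₂ k)
    (hn1 : ∀ k, k + 1 < K → n₂ k = c (k + 1)) (hn2 : ∀ k, k + 1 = K → n₂ k = n')
    (hn3 : n' ≤ c K) (g : Perm V) :
    ‖∏ k ∈ range K, z k ^ wc (c k) (c (k + 1)) g - ∏ C ∈ cycs g,
      fac K (fun k => Real.exp (-(1 / c k))) (fun k => Real.exp (-(1 / n₂ k))) z C.card‖ ≤
    ∑ k ∈ range K, ‖z k - 1‖ * ((∑ D ∈ cycs g, |Real.exp (-(D.card / n₂ k)) -
      Real.exp (-(D.card / c k)) -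
      (if c k < (D.card : ℝ) ∧ (D.card : ℝ) ≤ n₂ k then 1 else 0)|) + nc n' g) := by
  have hf : ∀ (k : ℕ) (C : Finset V), (((Real.exp (-(1 / n₂ k)) : ℝ) : ℂ) ^ C.card -
      ((Real.exp (-(1 / c k)) : ℝ) : ℂ) ^ C.card) =
      ((Real.exp (-(C.card / n₂ k)) - Real.exp (-(C.card / c k)) : ℝ) : ℂ) := by
    intro k C
    rw [← Complex.ofReal_pow, ← Complex.ofReal_pow, ← Real.exp_nat_mul, ← Real.exp_nat_mul,
      ← Complex.ofReal_sub]
    congr 3
    · ring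
    · ring
  have hfac : ∀ C : Finset V, fac K (fun k => Real.exp (-(1 / c k)))
      (fun k => Real.exp (-(1 / n₂ k))) z C.card =
      1 + ∑ k ∈ range K, (z k - 1) *
        ((Real.exp (-(C.card / n₂ k)) - Real.exp (-(C.card / c k)) : ℝ) : ℂ) := by
    intro C
    unfold fac
    congr 1
    exact sum_congr rfl fun k _ => by rw [hf k C]
  have hexcl : ∀ C : Finset V, ∏ k ∈ range K,
      (if c k < (C.card : ℝ) ∧ (C.card : ℝ) ≤ c (k + 1) then z k else 1) =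
      1 + ∑ k ∈ range K, (z k - 1) *
        ((if c k < (C.card : ℝ) ∧ (C.card : ℝ) ≤ c (k + 1) then 1 else 0 : ℝ) : ℂ) := by
    intro C
    apply prod_excl (fun k => c k < (C.card : ℝ) ∧ (C.card : ℝ) ≤ c (k + 1)) z K
    intro i j hij hj hi hj'
    have := hmono (i + 1) j hij hj.le
    linarith [hi.2, hj'.1]
  have hwin : ∏ k ∈ range K, z k ^ wc (c k) (c (k + 1)) g = ∏ D ∈ cycs g, ∏ k ∈ range K,
      (if c k < (D.card : ℝ) ∧ (D.card : ℝ) ≤ c (k + 1) then z k else 1) := by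
    rw [prod_comm]
    exact prod_congr rfl fun k _ => wc_pow _ _ g (z k)
  rw [hwin]
  refine (prod_diff _ _ _ ?_ ?_).trans ?_
  · intro D _
    rw [norm_prod]
    refine prod_le_one (fun k _ => norm_nonneg _) fun k hk => ?_
    split_ifs
    · exact hz k (mem_range.1 hk)
    · rw [norm_one]
  · intro D _
    refine fac_norm K _ _ z _ ?_ ?_ hz ?_
    · intro k hk
      refine ⟨(Real.exp_pos _).le, ?_⟩
      rw [Real.exp_le_exp, neg_le_neg_iff]
      exact one_div_le_one_div_of_le (hc k hk).1 (hc k hk).2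
    · intro k hk
      rw [Real.exp_le_one_iff, neg_nonpos]
      have := (hc k hk).1.trans_le (hc k hk).2
      positivity
    · intro k hk
      show Real.exp (-(1 / n₂ k)) ≤ Real.exp (-(1 / c (k + 1)))
      rw [hn1 k hk]
  · have hD : ∀ D ∈ cycs g, ‖∏ k ∈ range K,
        (if c k < (D.card : ℝ) ∧ (D.card : ℝ) ≤ c (k + 1) then z k else 1) -
        fac K (fun k => Real.exp (-(1 / c k))) (fun k => Real.exp (-(1 / n₂ k))) z D.card‖ ≤
        ∑ k ∈ range K, ‖z k - 1‖ * (|Real.exp (-(D.card / n₂ k)) - Real.exp (-(D.card / c k)) -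
          (if c k < (D.card : ℝ) ∧ (D.card : ℝ) ≤ n₂ k then 1 else 0)| +
          (if n' < (D.card : ℝ) then 1 else 0)) := by
      intro D _
      rw [hexcl D, hfac D, add_sub_add_left_eq_sub, ← sum_sub_distrib]
      refine (norm_sum_le _ _).trans (sum_le_sum fun k hk => ?_)
      rw [← mul_sub, norm_mul, ← Complex.ofReal_sub, Complex.norm_real, Real.norm_eq_abs]
      refine mul_le_mul_of_nonneg_left ?_ (norm_nonneg _)
      apply ind_cmp
      have hk' := mem_range.1 hk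
      rcases Nat.lt_or_ge (k + 1) K with h | h
      · exact Or.inl (hn1 k h)
      · have h' : k + 1 = K := by omega
        right
        exact ⟨hn2 k h', by rw [h']; exact hn3⟩
    refine (sum_le_sum hD).trans (le_of_eq ?_)
    rw [sum_comm]
    refine sum_congr rfl fun k _ => ?_
    rw [← mul_sum, sum_add_distrib, nc_sum]

/-- the comparison of the generating functions -/
theorem gen_cmp {P : Perm V → ℝ} (hP : ∀ g, 0 ≤ P g) (K : ℕ) (c n₂ : ℕ → ℝ) (n' : ℝ)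
    (z : ℕ → ℂ) (hz : ∀ k < K, ‖z k‖ ≤ 1)
    (hmono : ∀ i j, i ≤ j → j ≤ K → c i ≤ c j) (hc : ∀ k < K, 0 < c k ∧ c k ≤ n₂ k)
    (hn1 : ∀ k, k + 1 < K → n₂ k = c (k + 1)) (hn2 : ∀ k, k + 1 = K → n₂ k = n')
    (hn3 : n' ≤ c K) {C₂ C₃ ρ : ℝ}
    (hS : ∀ k < K, ∑ g, P g * (∑ D ∈ cycs g, |Real.exp (-(D.card / n₂ k)) -
      Real.exp (-(D.card / c k)) -
      (if c k < (D.card : ℝ) ∧ (D.card : ℝ) ≤ n₂ k then 1 else 0)|) ≤ C₂)
    (hC : ∑ g, P g * (nc n' g : ℝ) ≤ C₃) (hρ : ∀ k < K, ‖z k - 1‖ * (C₂ + C₃) ≤ ρ) :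
    ‖∑ g, (P g : ℂ) * ∏ k ∈ range K, z k ^ wc (c k) (c (k + 1)) g -
      ∑ g, (P g : ℂ) * ∏ C ∈ cycs g,
        fac K (fun k => Real.exp (-(1 / c k))) (fun k => Real.exp (-(1 / n₂ k))) z C.card‖ ≤
      K * ρ := by
  rw [← sum_sub_distrib]
  refine (norm_sum_le _ _).trans ?_
  have h1 : ∀ g ∈ (univ : Finset (Perm V)), ‖(P g : ℂ) *
      ∏ k ∈ range K, z k ^ wc (c k) (c (k + 1)) g - (P g : ℂ) * ∏ C ∈ cycs g,
        fac K (fun k => Real.exp (-(1 / c k))) (fun k => Real.exp (-(1 / n₂ k))) z C.card‖ ≤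
      ∑ k ∈ range K, ‖z k - 1‖ * (P g * (∑ D ∈ cycs g, |Real.exp (-(D.card / n₂ k)) -
      Real.exp (-(D.card / c k)) -
      (if c k < (D.card : ℝ) ∧ (D.card : ℝ) ≤ n₂ k then 1 else 0)|) + P g * nc n' g) := by
    intro g _
    rw [← mul_sub, norm_mul, Complex.norm_real, Real.norm_eq_abs, abs_of_nonneg (hP g)]
    have h2 := mul_le_mul_of_nonneg_left
      (one_perm K c n₂ n' z hz hmono hc hn1 hn2 hn3 g) (hP g)
    refine h2.trans (le_of_eq ?_)
    rw [mul_sum]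
    refine sum_congr rfl fun k _ => ?_
    ring
  refine (sum_le_sum h1).trans ?_
  rw [sum_comm]
  have h3 : ∀ k ∈ range K, ∑ g, ‖z k - 1‖ * (P g * (∑ D ∈ cycs g, |Real.exp (-(D.card / n₂ k)) -
      Real.exp (-(D.card / c k)) -
      (if c k < (D.card : ℝ) ∧ (D.card : ℝ) ≤ n₂ k then 1 else 0)|) + P g * nc n' g) ≤ ρ := by
    intro k hk
    have hk' := mem_range.1 hk
    rw [← mul_sum, sum_add_distrib]
    exact (mul_le_mul_of_nonneg_left (add_le_add (hS k hk') hC) (norm_nonneg _)).trans (hρ k hk')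
  refine (sum_le_card_nsmul _ _ _ h3).trans (le_of_eq ?_)
  rw [card_range, nsmul_eq_mul]

/-- the characteristic function -/
theorem char_bd {P : Perm V → ℝ} (K : ℕ) (c lam Lam θ : ℕ → ℝ) {η : ℝ} (F : ℂ)
    (hlam : ∀ k < K, 0 < lam k) (hLam : ∀ k < K, 0 ≤ Lam k)
    (hA : ‖∑ g, (P g : ℂ) * ∏ k ∈ range K,
      Complex.exp ((θ k / Real.sqrt (lam k) : ℝ) * Complex.I) ^ wc (c k) (c (k + 1)) g -
      F‖ ≤ K * (η / 4))
    (hB : ‖F - Complex.exp (∑ k ∈ range K,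
      (Complex.exp ((θ k / Real.sqrt (lam k) : ℝ) * Complex.I) - 1) * (Lam k : ℝ))‖ ≤
      K * (η / 4))
    (hcalc : ∀ k < K, ‖Complex.exp ((Complex.exp ((θ k / Real.sqrt (lam k) : ℝ) *
        Complex.I) - 1) * Lam k) *
      Complex.exp (-((θ k * Real.sqrt (lam k) : ℝ) : ℂ) * Complex.I) -
      Complex.exp (-(θ k : ℂ) ^ 2 / 2)‖ ≤ η / 2) :
    ‖∑ g, (P g : ℂ) * Complex.exp ((∑ k ∈ range K, θ k * (((wc (c k) (c (k + 1)) g : ℝ) -
        lam k) / Real.sqrt (lam k)) : ℝ) * Complex.I) -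
      Complex.exp (-((∑ k ∈ range K, θ k ^ 2 : ℝ) : ℂ) / 2)‖ ≤ K * η := by
  obtain ⟨z, hz⟩ : ∃ z : ℕ → ℂ, ∀ k, z k =
    Complex.exp ((θ k / Real.sqrt (lam k) : ℝ) * Complex.I) := ⟨_, fun _ => rfl⟩
  obtain ⟨u, hu⟩ : ∃ u : ℕ → ℂ, ∀ k, u k =
    Complex.exp (-((θ k * Real.sqrt (lam k) : ℝ) : ℂ) * Complex.I) := ⟨_, fun _ => rfl⟩
  simp only [← hz] at hA hB hcalc
  simp only [← hu] at hcalc
  have hz1 : ∀ k, ‖z k‖ ≤ 1 := by
    intro k
    rw [hz, Complex.norm_exp_ofReal_mul_I]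
  have hu1 : ∀ k, ‖u k‖ = 1 := by
    intro k
    rw [hu, ← Complex.ofReal_neg, Complex.norm_exp_ofReal_mul_I]
  have hU : ‖∏ k ∈ range K, u k‖ = 1 := by
    rw [norm_prod]
    exact prod_eq_one fun k _ => hu1 k
  have hX : ∑ g, (P g : ℂ) * Complex.exp ((∑ k ∈ range K, θ k * (((wc (c k) (c (k + 1)) g : ℝ) -
        lam k) / Real.sqrt (lam k)) : ℝ) * Complex.I) =
      (∑ g, (P g : ℂ) * ∏ k ∈ range K, z k ^ wc (c k) (c (k + 1)) g) * ∏ k ∈ range K, u k := by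
    rw [sum_mul]
    refine sum_congr rfl fun g _ => ?_
    rw [mul_assoc (P g : ℂ), ← prod_mul_distrib, Complex.ofReal_sum, sum_mul, Complex.exp_sum]
    congr 1
    refine prod_congr rfl fun k hk => ?_
    have hsq : 0 < Real.sqrt (lam k) := Real.sqrt_pos.2 (hlam k (mem_range.1 hk))
    rw [hz, hu, ← Complex.exp_nat_mul, ← Complex.exp_add]
    congr 1
    have h1 : ((wc (c k) (c (k + 1)) g : ℝ) - lam k) / Real.sqrt (lam k) =
        wc (c k) (c (k + 1)) g / Real.sqrt (lam k) - Real.sqrt (lam k) := by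
      rw [sub_div]
      congr 1
      rw [div_eq_iff hsq.ne', Real.mul_self_sqrt (hlam k (mem_range.1 hk)).le]
    rw [h1]
    push_cast
    ring
  have hE : Complex.exp (-((∑ k ∈ range K, θ k ^ 2 : ℝ) : ℂ) / 2) =
      ∏ k ∈ range K, Complex.exp (-(θ k : ℂ) ^ 2 / 2) := by
    rw [← Complex.exp_sum]
    congr 1
    rw [Complex.ofReal_sum, ← sum_neg_distrib, sum_div]
    refine sum_congr rfl fun k _ => ?_
    push_cast
    ring
  have hlast : ‖Complex.exp (∑ k ∈ range K, (z k - 1) * (Lam k : ℝ)) * ∏ k ∈ range K, u k -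
      ∏ k ∈ range K, Complex.exp (-(θ k : ℂ) ^ 2 / 2)‖ ≤ K * (η / 2) := by
    rw [Complex.exp_sum, ← prod_mul_distrib]
    refine (prod_diff _ _ _ ?_ ?_).trans ?_
    · intro k hk
      rw [norm_mul, hu1 k, mul_one, Complex.norm_exp, Real.exp_le_one_iff, Complex.re_mul_ofReal,
        Complex.sub_re, Complex.one_re]
      have h1 : (z k).re ≤ 1 := (Complex.re_le_norm _).trans (hz1 k)
      exact mul_nonpos_of_nonpos_of_nonneg (by linarith) (hLam k (mem_range.1 hk))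
    · intro k _
      have h1 : (-(θ k : ℂ) ^ 2 / 2) = ((-(θ k) ^ 2 / 2 : ℝ) : ℂ) := by
        push_cast
        ring
      rw [h1, Complex.norm_exp_ofReal, Real.exp_le_one_iff]
      have := sq_nonneg (θ k)
      linarith
    · refine (sum_le_card_nsmul _ _ _ fun k hk => hcalc k (mem_range.1 hk)).trans (le_of_eq ?_)
      rw [card_range, nsmul_eq_mul]
  rw [hX, hE]
  have h4 : (∑ g, (P g : ℂ) * ∏ k ∈ range K, z k ^ wc (c k) (c (k + 1)) g) * (∏ k ∈ range K, u k) -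
      ∏ k ∈ range K, Complex.exp (-(θ k : ℂ) ^ 2 / 2) =
      (∑ g, (P g : ℂ) * ∏ k ∈ range K, z k ^ wc (c k) (c (k + 1)) g - F) *
        (∏ k ∈ range K, u k) +
      (F - Complex.exp (∑ k ∈ range K, (z k - 1) * (Lam k : ℝ))) * (∏ k ∈ range K, u k) +
      (Complex.exp (∑ k ∈ range K, (z k - 1) * (Lam k : ℝ)) * (∏ k ∈ range K, u k) -
        ∏ k ∈ range K, Complex.exp (-(θ k : ℂ) ^ 2 / 2)) := by
    ring
  rw [h4]
  refine (norm_add_le _ _).trans ?_
  refine (add_le_add (norm_add_le _ _) le_rfl).trans ?_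
  rw [norm_mul, norm_mul, hU, mul_one, mul_one]
  have h5 : (K : ℝ) * η = K * (η / 4) + K * (η / 4) + K * (η / 2) := by ring
  linarith

end comb

theorem jclt (hMGEN : S_MGEN) (hNUM : S_NUM) (hNCL : S_NCL) (hCALC : S_CALC) : S_JCLT := by
  intro d hd
  obtain ⟨m₁, T₁, hm₁, hT₁, hG⟩ := hMGEN d hd
  obtain ⟨m₂, T₂, C₂, hm₂, hT₂, hC₂, hN⟩ := hNUM d hd
  obtain ⟨M, hM⟩ : ∃ M : ℕ, M = max m₁ m₂ + 1 := ⟨_, rfl⟩
  obtain ⟨m₃, T₃, C₃, hm₃, hT₃, hC₃, hNC⟩ := hNCL d hd M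
  obtain ⟨m, hm⟩ : ∃ m : ℕ, m = max M m₃ := ⟨_, rfl⟩
  refine ⟨m, fun K R ε hε => ?_⟩
  rcases Nat.eq_zero_or_pos K with hK0 | hK0
  · subst hK0
    refine ⟨3, le_rfl, ?_⟩
    intro L _ t c θ _ _ _ _ _ _ _
    simp only [range_zero, sum_empty, Complex.ofReal_zero, zero_mul, Complex.exp_zero, mul_one,
      neg_zero, zero_div]
    rw [← Complex.ofReal_sum, law_sum, Complex.ofReal_one, sub_self, norm_zero]
    exact hε.le
  have hK1 : (1 : ℝ) ≤ K := by exact_mod_cast hK0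
  obtain ⟨η, hηd⟩ : ∃ η : ℝ, η = ε / K := ⟨_, rfl⟩
  have hη : 0 < η := by rw [hηd]; positivity
  have hKη : (K : ℝ) * η = ε := by rw [hηd]; field_simp
  obtain ⟨R₁, hR₁⟩ : ∃ R₁ : ℝ, R₁ = max R 1 := ⟨_, rfl⟩
  have hR₁0 : 1 ≤ R₁ := by rw [hR₁]; exact le_max_right _ _
  obtain ⟨e, he, hcalc⟩ := hCALC R₁ (η / 2) (by positivity)
  obtain ⟨K₀, hK₀⟩ : ∃ K₀ : ℝ, K₀ = 2 * (32 / η + 2) := ⟨_, rfl⟩
  have hK₀0 : 0 < K₀ := by rw [hK₀]; positivity
  obtain ⟨T, hT⟩ : ∃ T : ℝ, T = T₁ + T₂ + T₃ + (M + 2) + ((M + 2) / e) ^ 2 +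
    (R₁ * (C₂ + C₃) / (η / 4)) ^ 2 + Real.exp K₀ := ⟨_, rfl⟩
  have q1 : 0 ≤ ((M + 2 : ℝ) / e) ^ 2 := by positivity
  have q2 : 0 ≤ (R₁ * (C₂ + C₃) / (η / 4)) ^ 2 := by positivity
  have q3 := Real.exp_pos K₀
  have q4 : (0 : ℝ) ≤ M := Nat.cast_nonneg M
  refine ⟨T, by rw [hT]; linarith, ?_⟩
  intro L _ t c θ hL hTt hlt ht4 hc0 hcK hcc
  obtain ⟨ℓ, hℓ⟩ : ∃ ℓ : ℝ, ℓ = Real.log L := ⟨_, rfl⟩
  obtain ⟨N, hNd⟩ : ∃ N : ℝ, N = (L : ℝ) ^ d := ⟨_, rfl⟩
  rw [← hℓ] at hlt hc0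
  rw [← hNd] at hcK
  obtain ⟨lam, hlamd⟩ : ∃ lam : ℕ → ℝ, ∀ k, lam k = Real.log (c (k + 1) / c k) :=
    ⟨_, fun _ => rfl⟩
  simp only [← hlamd, ← hℓ] at hcc ⊢
  have ht0 : 0 < t := by
    have : 0 < T := by rw [hT]; linarith
    linarith
  have hL3 : (3 : ℝ) ≤ L := by exact_mod_cast hL
  have hL0 : (0 : ℝ) < L := by linarith
  -- `ℓ` is large
  have hℓ1 : 32 / η + 2 ≤ ℓ := by
    have h1 : Real.log (t ^ 4) ≤ Real.log ((L : ℝ) ^ 7) := Real.log_le_log (by positivity) ht4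
    rw [Real.log_pow, Real.log_pow, ← hℓ] at h1
    have h2 : K₀ ≤ Real.log t := by
      rw [Real.le_log_iff_exp_le ht0]
      refine le_trans ?_ hTt
      rw [hT]
      linarith
    push_cast at h1
    have h3 : 0 < 32 / η := by positivity
    rw [hK₀] at h2
    linarith
  have hηp : 0 < 32 / η := by positivity
  have hℓ2 : 2 ≤ ℓ := by linarith
  have hℓ0 : 0 < ℓ := by linarith
  have hlogℓ : 0 ≤ Real.log ℓ := Real.log_nonneg (by linarith)
  have hpow : ∀ {a b : ℕ}, a ≤ b → ℓ ^ a ≤ ℓ ^ b := fun h =>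
    pow_le_pow_right₀ (by linarith) h
  have her := er_ge d L ht0
  have hm1 : m₁ + 1 ≤ m := by
    have := le_max_left m₁ m₂
    have := le_max_left M m₃
    omega
  have hm2 : m₂ ≤ m := by
    have := le_max_right m₁ m₂
    have := le_max_left M m₃
    omega
  have hm3 : m₃ ≤ m := by
    have := le_max_right M m₃
    omega
  have hM1 : m₁ + 1 ≤ M := by
    have := le_max_left m₁ m₂
    omega
  have hM2 : m₂ ≤ M := by
    have := le_max_right m₁ m₂
    omega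
  -- the cut-offs
  have hcmono : ∀ i j, i ≤ j → j ≤ K → c i ≤ c j := by
    intro i j hij hj
    induction j, hij using Nat.le_induction with
    | base => exact le_rfl
    | succ j _ ih => exact (ih (by omega)).trans (hcc j (by omega)).2.1
  have hck : ∀ k < K, ℓ ^ m * er d L t ≤ c k := fun k hk =>
    hc0.trans (hcmono 0 k (Nat.zero_le _) hk.le)
  have hn1 : ∀ k < K, ℓ ^ (m₁ + 1) * er d L t ≤ c k := fun k hk =>
    (mul_le_mul_of_nonneg_right (hpow hm1) (by linarith)).trans (hck k hk)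
  have hn2' : ∀ k < K, 2 ≤ c k := by
    intro k hk
    have h0 := hn1 k hk
    have h1 : ℓ ^ 1 ≤ ℓ ^ (m₁ + 1) := hpow (by omega)
    rw [pow_one] at h1
    have h2 : ℓ * 1 ≤ ℓ ^ (m₁ + 1) * er d L t :=
      mul_le_mul h1 her zero_le_one (by positivity)
    linarith
  have hn0 : ∀ k < K, 0 < c k := fun k hk => (hcc k hk).1
  have hN0 : 0 < N := by rw [hNd]; positivity
  obtain ⟨n', hn'⟩ : ∃ n' : ℝ, n' = N / ℓ ^ M := ⟨_, rfl⟩
  have hℓM : 0 < ℓ ^ M := by positivity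
  have hn'0 : 0 < n' := by rw [hn']; positivity
  have hn'N : n' ≤ N := by
    rw [hn', div_le_iff₀ hℓM]
    exact le_mul_of_one_le_right hN0.le (one_le_pow₀ (by linarith))
  have hT0 : (M : ℝ) + 2 ≤ T := by rw [hT]; linarith
  have hlam1 : ∀ k < K, T * (1 + Real.log ℓ) ≤ lam k := by
    intro k hk
    refine le_trans ?_ (hcc k hk).2.2.1
    have h1 : (1 + Real.log ℓ) ≤ (1 + Real.log ℓ) ^ 2 := ar2 hlogℓ
    exact mul_le_mul_of_nonneg_left h1 (by linarith)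
  have hlam0 : ∀ k < K, 0 < lam k := by
    intro k hk
    have : 0 < T * (1 + Real.log ℓ) := mul_pos (by linarith) (by linarith)
    exact this.trans_le (hlam1 k hk)
  obtain ⟨J, hJ⟩ : ∃ J, J + 1 = K := ⟨K - 1, by omega⟩
  have hcJ1 : c (J + 1) = N := by rw [hJ]; exact hcK
  have hcJ : c J ≤ n' := by
    have hJK : J < K := by omega
    rw [hn', le_div_iff₀ hℓM, mul_comm, ← le_div_iff₀ (hn0 J hJK)]
    have h1 : Real.log (ℓ ^ M) ≤ Real.log (N / c J) := by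
      rw [Real.log_pow, ← hcJ1, ← hlamd]
      refine le_trans ?_ (hlam1 J hJK)
      exact mul_le_mul (by linarith) (by linarith) hlogℓ (by linarith)
    exact (Real.log_le_log_iff hℓM (div_pos hN0 (hn0 J hJK))).1 h1
  obtain ⟨n₂, hn₂a, hn₂b⟩ : ∃ n₂ : ℕ → ℝ, (∀ k, k + 1 < K → n₂ k = c (k + 1)) ∧
      (∀ k, k + 1 = K → n₂ k = n') :=
    ⟨fun k => if k + 1 < K then c (k + 1) else n', fun k hk => if_pos hk,
      fun k hk => if_neg (by omega)⟩
  have hnn₂ : ∀ k < K, c k ≤ n₂ k := by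
    intro k hk
    rcases Nat.lt_or_ge (k + 1) K with h | h
    · rw [hn₂a k h]
      exact (hcc k hk).2.1
    · have h' : k = J := by omega
      rw [hn₂b k (by omega), h']
      exact hcJ
  have hn₂n : ∀ k < K, n₂ k ≤ n' := by
    intro k hk
    rcases Nat.lt_or_ge (k + 1) K with h | h
    · rw [hn₂a k h]
      exact (hcmono (k + 1) J (by omega) (by omega)).trans hcJ
    · rw [hn₂b k (by omega)]
  have hn₂0 : ∀ k < K, 0 < n₂ k := fun k hk => (hn0 k hk).trans_le (hnn₂ k hk)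
  have hn₂1 : ∀ k < K, 1 / n₂ k ≤ 1 := by
    intro k hk
    rw [div_le_one (hn₂0 k hk)]
    linarith [hn2' k hk, hnn₂ k hk]
  have htN : t ≤ (L : ℝ) ^ d := by
    have h1 : t ^ 4 ≤ ((L : ℝ) ^ 2) ^ 4 := by
      refine ht4.trans ?_
      rw [← pow_mul]
      exact pow_le_pow_right₀ (by linarith) (by norm_num)
    have h2 : t ≤ (L : ℝ) ^ 2 := le_of_pow_le_pow_left₀ (by norm_num) (by positivity) h1
    exact h2.trans (pow_le_pow_right₀ (by linarith) hd)
  have hPn : ∀ g, 0 ≤ stirLaw (nnRate d L) t g := fun g => law_nonneg nn_nonneg ht0.le g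
  -- the inputs
  have hw1 : ∀ k < K, 1 / 2 ≤ Real.exp (-(1 / c k)) := by
    intro k hk
    have h1 : 1 / c k ≤ 1 / 2 := one_div_le_one_div_of_le (by norm_num) (hn2' k hk)
    have h0 := hn0 k hk
    have := (one_sub_exp (x := 1 / c k) (by positivity) (by linarith)).2
    linarith
  have hw1' : ∀ k < K, 1 - Real.exp (-(1 / c k)) ≤ 1 / c k := by
    intro k hk
    have h1 : 1 / c k ≤ 1 / 2 := one_div_le_one_div_of_le (by norm_num) (hn2' k hk)
    have h0 := hn0 k hk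
    exact (one_sub_exp (x := 1 / c k) (by positivity) (by linarith)).2
  have hw12 : ∀ k < K, Real.exp (-(1 / c k)) ≤ Real.exp (-(1 / n₂ k)) := by
    intro k hk
    rw [Real.exp_le_exp, neg_le_neg_iff]
    exact one_div_le_one_div_of_le (hn0 k hk) (hnn₂ k hk)
  have hw2 : ∀ k < K, Real.exp (-(1 / n₂ k)) < 1 := by
    intro k hk
    rw [Real.exp_lt_one_iff, neg_lt_zero]
    have := hn₂0 k hk
    positivity
  have hw2' : ∀ k < K, ℓ ^ m₁ ≤ (L : ℝ) ^ d * (1 - Real.exp (-(1 / n₂ k))) := by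
    intro k hk
    have h0 := hn₂0 k hk
    have h1 := (one_sub_exp (x := 1 / n₂ k) (by positivity) (hn₂1 k hk)).1
    rw [← hNd]
    have h2 : ℓ ^ M / 2 ≤ N * (1 / n₂ k / 2) := by
      have h6 : 1 / n' ≤ 1 / n₂ k := one_div_le_one_div_of_le h0 (hn₂n k hk)
      have h7 : N * (1 / n') = ℓ ^ M := by
        rw [hn']
        field_simp
      have h8 := mul_le_mul_of_nonneg_left h6 hN0.le
      rw [h7] at h8
      have h9 : N * (1 / n₂ k / 2) = N * (1 / n₂ k) / 2 := by ring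
      rw [h9]
      linarith
    have h3 : ℓ ^ M / 2 ≤ N * (1 - Real.exp (-(1 / n₂ k))) :=
      h2.trans (mul_le_mul_of_nonneg_left h1 hN0.le)
    refine le_trans ?_ h3
    have h4 : ℓ ^ (m₁ + 1) ≤ ℓ ^ M := hpow hM1
    rw [pow_succ] at h4
    have h5 : 0 < ℓ ^ m₁ := by positivity
    exact ar1 h5.le hℓ2 h4
  have hT₁t : T₁ ≤ t := by
    refine le_trans ?_ hTt
    rw [hT]; linarith
  have hT₂t : T₂ ≤ t := by
    refine le_trans ?_ hTt
    rw [hT]; linarith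
  have hT₃t : T₃ ≤ t := by
    refine le_trans ?_ hTt
    rw [hT]; linarith
  have hNUM' : ∀ k < K, _ := fun k hk =>
    hN L t (c k) (n₂ k) hL hT₂t (by rw [← hℓ]; exact (hpow hm2).trans hlt) htN
    (by
      rw [← hℓ]
      exact (mul_le_mul_of_nonneg_right (hpow hm2) (by linarith)).trans (hck k hk)) (hnn₂ k hk)
    (by
      rw [← hℓ, ← hNd]
      have h1 : ℓ ^ m₂ * n₂ k ≤ ℓ ^ M * n' :=
        mul_le_mul (hpow hM2) (hn₂n k hk) (hn₂0 k hk).le hℓM.le
      refine h1.trans (le_of_eq ?_)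
      rw [hn', mul_div_cancel₀ _ hℓM.ne'])
  have hNCL' := hNC L t n' hL hT₃t (by rw [← hℓ]; exact (hpow hm3).trans hlt) ht4 hn'0
    (by
      rw [← hℓ, ← hNd, hn', mul_div_cancel₀ _ hℓM.ne'])
    (by
      rw [← hNd]
      exact hn'N)
  rw [← hℓ] at hNCL'
  -- square roots
  have hsqT : ∀ k < K, Real.sqrt T * (1 + Real.log ℓ) ≤ Real.sqrt (lam k) := by
    intro k hk
    have h1 : Real.sqrt T * (1 + Real.log ℓ) = Real.sqrt (T * (1 + Real.log ℓ) ^ 2) := by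
      rw [Real.sqrt_mul (by linarith), Real.sqrt_sq (by linarith)]
    rw [h1]
    exact Real.sqrt_le_sqrt (hcc k hk).2.2.1
  have hsT1 : (M : ℝ) + 2 ≤ e * Real.sqrt T :=
    le_sqrt_of (by linarith) he (by rw [hT]; linarith)
  have hsT2 : R₁ * (C₂ + C₃) ≤ η / 4 * Real.sqrt T :=
    le_sqrt_of (by positivity) (by positivity) (by rw [hT]; linarith)
  have hsT3 : ∀ k < K, Real.sqrt T ≤ Real.sqrt (lam k) := by
    intro k hk
    refine le_trans ?_ (hsqT k hk)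
    exact le_mul_of_one_le_right (Real.sqrt_nonneg _) (by linarith)
  obtain ⟨Lam, hLam⟩ : ∃ Lam : ℕ → ℝ, ∀ k, Lam k = Real.log (Real.exp (-(1 / n₂ k)) *
    (1 - Real.exp (-(1 / c k))) / (Real.exp (-(1 / c k)) * (1 - Real.exp (-(1 / n₂ k))))) :=
    ⟨_, fun _ => rfl⟩
  have hLb : ∀ k < K, |Lam k - lam k| ≤ e * Real.sqrt (lam k) := by
    intro k hk
    have h1 := lam_bd (n := c k) (n₂ := n₂ k) (by linarith [hn2' k hk]) (hnn₂ k hk)
    rw [← hLam] at h1
    have h3 : |Lam k - lam k| ≤ 2 + M * Real.log ℓ := by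
      rcases Nat.lt_or_ge (k + 1) K with h | h
      · rw [hn₂a k h, ← hlamd] at h1
        have := mul_nonneg q4 hlogℓ
        linarith
      · have h' : k + 1 = K := by omega
        have h2 : Real.log (n₂ k / c k) = lam k - M * Real.log ℓ := by
          rw [hlamd, hn₂b k h', hn', ← Real.log_pow, div_right_comm, h', hcK,
            Real.log_div (div_pos hN0 (hn0 k hk)).ne' hℓM.ne']
        rw [h2] at h1
        have h4 : Lam k - lam k = (Lam k - (lam k - M * Real.log ℓ)) + -(M * Real.log ℓ) := by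
          ring
        rw [h4]
        refine (abs_add_le _ _).trans ?_
        rw [abs_neg, abs_of_nonneg (mul_nonneg q4 hlogℓ)]
        linarith
    refine h3.trans ?_
    have h5 : 2 + M * Real.log ℓ ≤ (M + 2) * (1 + Real.log ℓ) := ar3 hlogℓ q4
    refine h5.trans ?_
    calc (M + 2) * (1 + Real.log ℓ) ≤ e * Real.sqrt T * (1 + Real.log ℓ) :=
          mul_le_mul_of_nonneg_right hsT1 (by linarith)
      _ = e * (Real.sqrt T * (1 + Real.log ℓ)) := by ring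
      _ ≤ e * Real.sqrt (lam k) := mul_le_mul_of_nonneg_left (hsqT k hk) he.le
  have hθ : ∀ k < K, |θ k| ≤ R₁ := by
    intro k hk
    rw [hR₁]
    exact (hcc k hk).2.2.2.trans (le_max_left _ _)
  have hLam0 : ∀ k < K, 0 ≤ Lam k := by
    intro k hk
    rw [hLam]
    apply Real.log_nonneg
    have h1 := Real.exp_pos (-(1 / c k))
    have h2 := hw2 k hk
    have h3 := hw12 k hk
    rw [one_le_div (mul_pos h1 (by linarith))]
    linarith [mul_comm (Real.exp (-(1 / n₂ k))) (Real.exp (-(1 / c k))),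
      mul_sub (Real.exp (-(1 / n₂ k))) 1 (Real.exp (-(1 / c k))),
      mul_sub (Real.exp (-(1 / c k))) 1 (Real.exp (-(1 / n₂ k)))]
  have hz1 : ∀ k < K, ‖Complex.exp ((θ k / Real.sqrt (lam k) : ℝ) * Complex.I)‖ ≤ 1 := by
    intro k _
    rw [Complex.norm_exp_ofReal_mul_I]
  have hA := gen_cmp hPn K c n₂ n'
    (fun k => Complex.exp ((θ k / Real.sqrt (lam k) : ℝ) * Complex.I)) hz1 hcmono
    (fun k hk => ⟨hn0 k hk, hnn₂ k hk⟩) hn₂a hn₂b (by rw [hcK]; exact hn'N) hNUM' hNCL'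
    (ρ := η / 4) (by
      intro k hk
      have hsq : 0 < Real.sqrt (lam k) := Real.sqrt_pos.2 (hlam0 k hk)
      have h1 : ‖Complex.exp ((θ k / Real.sqrt (lam k) : ℝ) * Complex.I) - 1‖ ≤
          R₁ / Real.sqrt (lam k) := by
        refine (expI_sub _).trans ?_
        rw [abs_div, abs_of_pos hsq]
        exact div_le_div_of_nonneg_right (hθ k hk) hsq.le
      have h2 : 0 ≤ C₂ + C₃ * (1 + Real.log ℓ) := by
        have : 0 ≤ C₃ * (1 + Real.log ℓ) := mul_nonneg (by linarith) (by linarith)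
        linarith
      refine (mul_le_mul_of_nonneg_right h1 h2).trans ?_
      rw [div_mul_eq_mul_div, div_le_iff₀ hsq]
      calc R₁ * (C₂ + C₃ * (1 + Real.log ℓ)) ≤ R₁ * (C₂ + C₃) * (1 + Real.log ℓ) := by
            have : C₂ + C₃ * (1 + Real.log ℓ) ≤ (C₂ + C₃) * (1 + Real.log ℓ) :=
              ar4 (by linarith) (by linarith)
            rw [mul_assoc]
            exact mul_le_mul_of_nonneg_left this (by linarith)
        _ ≤ η / 4 * Real.sqrt T * (1 + Real.log ℓ) :=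
            mul_le_mul_of_nonneg_right hsT2 (by linarith)
        _ = η / 4 * (Real.sqrt T * (1 + Real.log ℓ)) := by ring
        _ ≤ η / 4 * Real.sqrt (lam k) := mul_le_mul_of_nonneg_left (hsqT k hk) (by positivity))
  have hB := hG L t K (fun k => Real.exp (-(1 / c k))) (fun k => Real.exp (-(1 / n₂ k)))
    (fun k => Complex.exp ((θ k / Real.sqrt (lam k) : ℝ) * Complex.I)) hL hT₁t
    (by rw [← hℓ]; exact (hpow (by omega)).trans hlt) htN
    (fun k hk => ⟨hw1 k hk, hw12 k hk, hw2 k hk, by rw [← hℓ]; exact hw2' k hk, hz1 k hk⟩)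
    (fun k hk => by
      show Real.exp (-(1 / n₂ k)) ≤ Real.exp (-(1 / c (k + 1)))
      rw [hn₂a k hk])
  simp only [← hLam, ← hℓ] at hB
  have hB' : 8 * (ℓ ^ m₁ * er d L t) * ∑ k ∈ range K, (1 - Real.exp (-(1 / c k))) ≤
      K * (η / 4) := by
    rw [mul_sum]
    have h1 : ∀ k ∈ range K, 8 * (ℓ ^ m₁ * er d L t) * (1 - Real.exp (-(1 / c k))) ≤ η / 4 := by
      intro k hk
      have hk' := mem_range.1 hk
      have h2 : 8 * (ℓ ^ m₁ * er d L t) * (1 - Real.exp (-(1 / c k))) ≤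
          8 * (ℓ ^ m₁ * er d L t) * (1 / c k) :=
        mul_le_mul_of_nonneg_left (hw1' k hk') (by positivity)
      refine h2.trans ?_
      rw [mul_one_div, div_le_iff₀ (hn0 k hk')]
      have h3 : 32 ≤ η * ℓ := by
        have h4 : 32 / η ≤ ℓ := by linarith
        rw [div_le_iff₀ hη] at h4
        linarith
      have hn1' := hn1 k hk'
      rw [pow_succ] at hn1'
      have h5 : 0 < ℓ ^ m₁ * er d L t := by positivity
      calc 8 * (ℓ ^ m₁ * er d L t) ≤ η * ℓ / 4 * (ℓ ^ m₁ * er d L t) := ar5 h5.le h3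
        _ = η / 4 * (ℓ ^ m₁ * ℓ * er d L t) := by ring
        _ ≤ η / 4 * c k := mul_le_mul_of_nonneg_left hn1' (by positivity)
    refine (sum_le_card_nsmul _ _ _ h1).trans (le_of_eq ?_)
    rw [card_range, nsmul_eq_mul]
  have hfin := char_bd K c lam Lam θ _ hlam0 hLam0 hA (hB.trans hB') (fun k hk =>
    hcalc (lam k) (Lam k) (θ k) (hθ k hk) (hlam0 k hk) (by
      have : 1 ≤ e * Real.sqrt T := by linarith
      exact this.trans (mul_le_mul_of_nonneg_left (hsT3 k hk) he.le)) (hLb k hk))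
  rw [hKη] at hfin
  exact hfin

end Pool.Agent.H961.T5.Jclth
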